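import Pool.Agent.MWGR.StmtsF

/-!
# Squad MWGR (problem MP_23468a_al), row HLL: the coprime condition of the region
-/

namespace Pool.Agent.MWGR.H94

open Pool.Agent.Helper14_MV Pool.Agent.Helper2_MV Pool.Agent.MVO Pool.Agent.MWL Pool.Agent.MWS
  Pool.Agent.MWH Pool.Agent.MWGR

theorem alt_mem {k : ℕ} (hk : 3 ≤ k) : 1 ∈ alt k ∧ 2 ∈ alt k ∧ 0 ∉ alt k := by
  unfold alt
  refine ⟨?_, ?_, ?_⟩
  · rw [List.mem_flatMap]
    exact ⟨0, List.mem_range.2 (by omega), by simp⟩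
  · rw [List.mem_flatMap]
    exact ⟨1, List.mem_range.2 (by omega), by simp⟩
  · intro h
    rw [List.mem_flatMap] at h
    obtain ⟨j, -, hj⟩ := h
    simp only [List.mem_cons, List.not_mem_nil, or_false] at hj
    omega

theorem hll (hMNB : MnbStmt) (hECL : EclStmt) (hEAT : EatStmt) : HllStmt := by
  intro n β θ hR hle T hT g m hm hmn hD hE p hp hpn hnD hcon
  have hn : n ≠ 0 := by have := hR.pos; omega
  have hθ : BG n (RR θ) := ((hMNB n β θ hle).2 hR).toBG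
  set q := p ^ (n.factorization p) with hq
  have h1 : q * (n / q) = n := Nat.ordProj_mul_ordCompl_eq_self n p
  have h2 : Nat.Coprime q (n / q) := (Nat.coprime_ordCompl hp hn).pow_left _
  have h3 : Ea n q (RR θ) := by
    rcases hR.hall q (n / q) h1 h2 with h | h
    · exact absurd h hnD
    · exact hle _ _ h
  obtain ⟨h4, h5⟩ := hEAT n θ hθ q h3
  have h6 : Ec n q T (RR θ) ∧ 1 ∈ T ∧ 2 ∈ T ∧ 0 ∉ T := by
    rcases hT with rfl | ⟨k, hk, rfl⟩
    · exact ⟨h4, by simp, by simp, by simp⟩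
    · exact ⟨h5 k hk, alt_mem hk⟩
  have h7 : Nat.gcd q m ∣ g := by
    obtain ⟨e, -, he⟩ := (Nat.dvd_prime_pow hp).1 (Nat.gcd_dvd_left q m)
    rw [he]
    apply hcon e
    rw [← he]
    exact Nat.gcd_dvd_right q m
  exact hE (hECL n θ hθ T h6.2.1 h6.2.2.1 h6.2.2.2 m q g hm ((hD m).2 dvd_rfl) h7 h6.1)

end Pool.Agent.MWGR.H94
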